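import Pool.Agent.Helper88.QT.St3
import Pool.Agent.Helper85.QT.St1
import Pool.Agent.Helper24.PM.M_F1

/-! # Project QT, module CS1: cost of one step -/

set_option autoImplicit false

open Filter Topology Matrix Set MeasureTheory
open scoped ENNReal ComplexOrder

namespace Pool.Agent.Helper57.QT

open Pool.Agent.Helper35.PM

/-- scaling a potential function -/
theorem pot_scale (u : ℂ → ℝ) (j : ℂ → ℂ → ℝ) (hP : Pot u j) (c₀ : ℝ) (hc : 1 / 2 ≤ c₀)
    (hu : ∀ z ∈ Metric.ball (0 : ℂ) 1, c₀ ≤ u z) : Pot (fun z => u z / (2 * c₀)) j := by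
  have hc0 : (0 : ℝ) < 2 * c₀ := by linarith
  refine ⟨fun z hz => ?_, fun p hp => ?_⟩
  · show 1 / 2 ≤ u z / (2 * c₀)
    rw [le_div_iff₀ hc0]
    linarith [hu z hz]
  · obtain ⟨G, hG1, hG2, hG3⟩ := hP.2 p hp
    refine ⟨fun z => G z / ((2 * c₀ : ℝ) : ℂ), hG1.div_const _, fun z hz => ⟨?_, ?_⟩, ?_⟩
    · rw [Complex.div_ofReal_re, (hG2 z hz).1]
      ring
    · rw [Complex.div_ofReal_re]
      exact div_le_div_of_nonneg_right (hG2 z hz).2 hc0.le
    · rw [Complex.div_ofReal_re, hG3]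

theorem hCS1 (hQF : Pool.Agent.Helper35.PM.St_QF) (hPO : Pool.Agent.Helper35.PM.St_PO)
    (hGE1 : Pool.Agent.Helper35.PM.St_GE1) (hGE2 : Pool.Agent.Helper35.PM.St_GE2)
    (hCS : Pool.Agent.Helper35.PM.St_CS) : Pool.Agent.Helper88.QT.StCS1 := by
  intro g hg U hU f hf c₀ ε L hL hε hc hlow hup
  have hc0 : (0 : ℝ) < 2 * c₀ := by linarith
  have hF : ∀ z ∈ Metric.ball (0 : ℂ) 1, Facts (f z) := fun z hz => hQF g hg (f z) (hf.2 z hz)
  have hP := hPO (SurfaceGroup g) f U hf.1 hF (fun z hz => hU (f z) (hf.2 z hz))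
  have hlen : LengthLE U (fun t => f (zt t)) 0 L
      (ENNReal.ofReal (Real.sqrt (2 * ε * L * (L + 2)))) := by
    rcases hL.eq_or_lt with h0 | hL0
    · refine ⟨fun _ => 0, measurable_const, fun t ht => ?_, by simp⟩
      rw [← h0] at ht
      exact absurd ht (by simp)
    · have hP' := pot_scale _ _ hP c₀ hc hlow
      obtain ⟨g1, g2, g3, g4⟩ := hGE1 _ _ hP'
      obtain ⟨q, hq, hq1, hq2⟩ := hGE2 (fun t => 1 / ent (f (zt t)) / (2 * c₀))
        (fun t s => J (U (f (zt t))) (f (zt t)) (f (zt s))) L (4 * ε) hL0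
        (fun t => (g4 t t).2) (fun t s => (g4 s t).1) g1 g2 g3
        (fun t ht => by
          show 2 - 1 / (1 / ent (f (zt t)) / (2 * c₀)) ≤ 4 * ε
          have hu1 : c₀ ≤ 1 / ent (f (zt t)) := hlow _ (Pool.Agent.Helper24.PM.zt_mem t)
          have hu2 := hup t ht
          set u := 1 / ent (f (zt t)) with hu
          have hu0 : 0 < u := by linarith
          have e1 : 1 / (u / (2 * c₀)) = 2 * c₀ / u := by
            rw [one_div_div]
          rw [e1]
          have e2 : 2 - 4 * ε ≤ 2 * c₀ / u := by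
            rw [le_div_iff₀ hu0]
            nlinarith
          linarith)
      obtain ⟨q₁, hm, hs, hi⟩ := hCS q (fun _ => 1) 0 L hq measurable_const
        (fun _ _ => ⟨one_ne_zero, ENNReal.one_ne_top⟩)
      refine ⟨q₁, hm, fun t ht => ?_, hi.trans ?_⟩
      · rw [hs]
        exact hq1 t ht
      · have e1 : (∫⁻ t in Ioo 0 L, (fun _ : ℝ => (1 : ℝ≥0∞)) t * q t) =
            ∫⁻ t in Ioo 0 L, q t := by simp
        have e2 : (∫⁻ t in Ioo 0 L, ((fun _ : ℝ => (1 : ℝ≥0∞)) t)⁻¹) = ENNReal.ofReal L := by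
          simp
        rw [e1, e2]
        calc (∫⁻ t in Ioo 0 L, q t) ^ (1 / 2 : ℝ) * ENNReal.ofReal L ^ (1 / 2 : ℝ)
            ≤ ENNReal.ofReal (4 * ε / 2 * (L + 2)) ^ (1 / 2 : ℝ) *
              ENNReal.ofReal L ^ (1 / 2 : ℝ) := by
                gcongr
          _ = (ENNReal.ofReal (4 * ε / 2 * (L + 2)) * ENNReal.ofReal L) ^ (1 / 2 : ℝ) := by
                rw [ENNReal.mul_rpow_of_nonneg _ _ (by norm_num)]
          _ = ENNReal.ofReal (2 * ε * L * (L + 2)) ^ (1 / 2 : ℝ) := by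
                rw [← ENNReal.ofReal_mul (by positivity)]
                congr 2
                ring
          _ = ENNReal.ofReal (Real.sqrt (2 * ε * L * (L + 2))) := by
                rw [ENNReal.ofReal_rpow_of_nonneg (by positivity) (by norm_num),
                  Real.sqrt_eq_rpow]
          _ ≤ _ := le_rfl
  refine sInf_le ?_
  have h := PressureLE.path (U := U) (fun t => f (zt t)) 0 L _ hL
    (Pool.Agent.Helper24.PM.smooth_path f hf 0 L) hlen
  simp only [Pool.Agent.Helper24.PM.zt_zero] at h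
  exact h

end Pool.Agent.Helper57.QT
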