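import Pool.Agent.Helper61.QE.St5
import Pool.Agent.Helper68.QS.St1
import Pool.Agent.Helper69.QC.St

/-!
# Project QD (MP_d112a4_gt), part C: strictness at all points of the orbit of `SL(2,ℤ)`

From the transfer (`QS.StTRF`) and the strictness at the base point (`QE.StSTR`).
-/

set_option autoImplicit false

open MeasureTheory Set Filter Topology Complex
open scoped ContDiff ComplexConjugate ENNReal

namespace Pool.Agent.Helper57.QT

open Pool.Agent.Helper68.QC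
open Pool.Agent.Helper61.QE (D Dx rf SU Fu FD Ab sy nuT muT syX syY Kap En Et)
open Pool.Agent.Helper69.QC (mb Orb)

/-- `H` is a homeomorphism of the unit disc with inverse `H'`, equal to `ζ ↦ a ζ + b conj ζ + v` in
the coordinate `h`, and normalising the group `s`. -/
structure AfL {Γ : Type} [Group Γ] (s : Γ →* SL) (h : ℂ → ℂ) (a b : ℂ) (H H' : ℂ → ℂ)
    (φ : Γ ≃* Γ) (v : ℂ) : Prop where
  cont : ContinuousOn H D
  cont' : ContinuousOn H' D
  maps : MapsTo H D D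
  maps' : MapsTo H' D D
  left : ∀ z ∈ D, H' (H z) = z
  right : ∀ z ∈ D, H (H' z) = z
  aff : ∀ z ∈ D, h (H z) = a * h z + b * conj (h z) + v
  eqv : ∀ γ, ∀ z ∈ D, H (mob (s γ) z) = mob (s (φ γ)) (H z)

/-- Every element of `SL(2,ℤ)` is realised in the coordinate `h` by a homeomorphism of the disc
which normalises the group. -/
def Lifts {Γ : Type} [Group Γ] (s : Γ →* SL) (h : ℂ → ℂ) : Prop :=
  ∀ p q r t : ℤ, p * t - q * r = 1 → ∃ (H H' : ℂ → ℂ) (φ : Γ ≃* Γ) (v : ℂ),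
    AfL s h ((((p + t : ℤ) : ℂ) + ((r - q : ℤ) : ℂ) * I) / 2)
      ((((p - t : ℤ) : ℂ) + ((r + q : ℤ) : ℂ) * I) / 2) H H' φ v

/-- Strictness at all points of the orbit. -/
def Strict {Γ : Type} [Group Γ] (s : Γ →* SL) (F : Set ℂ) (h : ℂ → ℂ) (c r : ℝ) : Prop :=
  ∀ k < 1, ∀ κ, Kap s k κ → ∀ p ∈ Orb, p ∈ Metric.ball (0 : ℂ) 1 →
    c * Et F κ h p ^ 2 ≤ Et F κ h p - Real.circleAverage (fun ζ => Et F κ h (mb p ζ)) 0 r

theorem rot (f : ℂ → ℝ) (u : ℂ) (r : ℝ) (hu : ‖u‖ = 1) :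
    Real.circleAverage (fun ζ => f (ζ * u)) 0 r = Real.circleAverage f 0 r := by
  have hu0 : u ≠ 0 := by
    intro h
    rw [h, norm_zero] at hu
    exact zero_ne_one hu
  have hexp : Complex.exp (u.arg * I) = u := by
    have h1 := Complex.norm_mul_exp_arg_mul_I u
    rw [hu, Complex.ofReal_one, one_mul] at h1
    exact h1
  have h2 : ∀ θ : ℝ, circleMap 0 r θ * u = circleMap 0 r (θ + u.arg) := by
    intro θ
    simp only [circleMap, zero_add]
    rw [Complex.ofReal_add, add_mul, Complex.exp_add, hexp]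
    ring
  unfold Real.circleAverage
  congr 1
  simp only [h2]
  rw [intervalIntegral.integral_comp_add_right (fun θ => f (circleMap 0 r θ)) u.arg]
  have h3 : Function.Periodic (fun θ => f (circleMap 0 r θ)) (2 * Real.pi) := by
    intro θ
    simp only
    rw [periodic_circleMap 0 r θ]
  have h4 := h3.intervalIntegral_add_eq (0 + u.arg) 0
  rw [zero_add] at h4
  rw [zero_add, add_comm (2 * Real.pi) u.arg, h4, zero_add]

theorem sq_sub (p q r t : ℤ) (h : p * t - q * r = 1) :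
    ‖(((p + t : ℤ) : ℂ) + ((r - q : ℤ) : ℂ) * I) / 2‖ ^ 2 -
      ‖(((p - t : ℤ) : ℂ) + ((r + q : ℤ) : ℂ) * I) / 2‖ ^ 2 = 1 := by
  have h1 : ((p : ℝ) * t - q * r) = 1 := by exact_mod_cast h
  have h2 : ∀ x y : ℤ, ‖((x : ℂ) + (y : ℂ) * I) / 2‖ ^ 2 = ((x : ℝ) ^ 2 + (y : ℝ) ^ 2) / 4 := by
    intro x y
    rw [← Complex.normSq_eq_norm_sq, Complex.normSq_div]
    have e1 : Complex.normSq ((x : ℂ) + (y : ℂ) * I) = (x : ℝ) ^ 2 + (y : ℝ) ^ 2 := by
      have := Complex.normSq_add_mul_I (x : ℝ) (y : ℝ)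
      push_cast at this
      exact this
    rw [e1]
    norm_num
  rw [h2, h2]
  push_cast
  linarith

theorem orb1 (hTRF : Pool.Agent.Helper68.QS.StTRF) (hEFD : Pool.Agent.Helper68.QS.EFD)
    (hSTR : Pool.Agent.Helper61.QE.StSTR) (Γ : Type) [Group Γ] (s : Γ →* SL) (F : Set ℂ)
    (h : ℂ → ℂ) (hs : Fu s) (hF : FD s F) (hh : Ab s h) (hL : Lifts s h) (r : ℝ) (hr : 0 < r)
    (hr1 : r < 1) : ∃ c : ℝ, 0 < c ∧ Strict s F h c r := by
  obtain ⟨c, hc, hstr⟩ := hSTR Γ s F h hs hF hh r hr hr1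
  refine ⟨c, hc, ?_⟩
  intro k hk κ hκ p hp hpb
  have hk0 : 0 ≤ k := (norm_nonneg _).trans (hκ.bel.le 0)
  obtain ⟨p0, q0, r0, t0, hdet, hpe⟩ := hp
  have hdet' : p0 * t0 - (-q0) * (-r0) = 1 := by linarith
  obtain ⟨H, H', φ, v, hA⟩ := hL p0 (-q0) (-r0) t0 hdet'
  have hsq := sq_sub p0 (-q0) (-r0) t0 hdet'
  set a : ℂ := (((p0 + t0 : ℤ) : ℂ) + ((-r0 - -q0 : ℤ) : ℂ) * I) / 2 with ha
  set b : ℂ := (((p0 - t0 : ℤ) : ℂ) + ((-r0 + -q0 : ℤ) : ℂ) * I) / 2 with hb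
  have hlt : ‖b‖ < ‖a‖ := by
    have h1 := norm_nonneg a
    have h2 := norm_nonneg b
    nlinarith
  have ha0 : a ≠ 0 := by
    intro h0
    rw [h0, norm_zero] at hlt
    exact absurd hlt (not_lt.2 (norm_nonneg _))
  have hca : conj a = (((p0 + t0 : ℤ) : ℂ) + ((r0 - q0 : ℤ) : ℂ) * I) / 2 := by
    rw [ha, map_div₀, map_add, map_mul, Complex.conj_I, map_intCast, map_intCast]
    have : (conj (2 : ℂ)) = 2 := Complex.conj_ofNat 2
    rw [this]
    push_cast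
    ring
  have hcb : conj b = (((p0 - t0 : ℤ) : ℂ) + ((r0 + q0 : ℤ) : ℂ) * I) / 2 := by
    rw [hb, map_div₀, map_add, map_mul, Complex.conj_I, map_intCast, map_intCast]
    have : (conj (2 : ℂ)) = 2 := Complex.conj_ofNat 2
    rw [this]
    push_cast
    ring
  have hca0 : conj a ≠ 0 := (map_ne_zero _).2 ha0
  have hpt : conj (b / a) = p := by
    rw [map_div₀, div_eq_iff hca0, hca, hcb, ← mul_div_assoc, hpe]
  have hAff : Pool.Agent.Helper68.QS.AffH h H H' a b v :=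
    ⟨hA.maps, hA.maps', hA.cont, hA.cont', hA.left, hA.right, hA.aff, hlt⟩
  obtain ⟨δ, hδ, κ', hδ0, hκ', hen⟩ :=
    hTRF hEFD Γ s φ h H H' κ a b v F k hs hF hh hAff hA.eqv hk0 hk hκ
  have hu : ‖conj a / a‖ = 1 := by
    rw [norm_div, RCLike.norm_conj, div_self (norm_ne_zero_iff.2 ha0)]
  have hEt : ∀ ζ ∈ D, Et F κ h (mb p ζ) = Et F κ' h (ζ * (conj a / a)) := by
    intro ζ hζ
    have h1 := hen ζ hζ
    rw [hpt] at h1
    unfold Et
    have h2 : Pool.Agent.Helper68.QS.mbp p ζ = mb p ζ := rfl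
    rw [← h2, h1]
  have h0 : Et F κ h p = Et F κ' h 0 := by
    have h1 := hEt 0 (Metric.mem_ball_self one_pos)
    rw [zero_mul] at h1
    have h2 : mb p 0 = p := by simp [mb]
    rwa [h2] at h1
  have h1 : Real.circleAverage (fun ζ => Et F κ h (mb p ζ)) 0 r =
      Real.circleAverage (Et F κ' h) 0 r := by
    rw [← rot (Et F κ' h) (conj a / a) r hu]
    refine Real.circleAverage_congr_sphere ?_
    intro ζ hζ
    refine hEt ζ ?_
    rw [mem_sphere_zero_iff_norm, abs_of_pos hr] at hζ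
    rw [mem_ball_zero_iff, hζ]
    exact hr1
  rw [h0, h1]
  exact hstr δ hδ κ' hκ'

end Pool.Agent.Helper57.QT
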